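import Pool.Agent.J4H57.GS.Dia

/-!
# Project GS5 (helper38, MP_bc6037_nt): (MVD), the mean value on dyadic intervals

The exponent in the diagonal estimate does not depend on the shifts: `dia_unif`.
-/

set_option autoImplicit false

open MeasureTheory Set Filter Polynomial Topology
open scoped ComplexConjugate

namespace Pool.Agent.J4H97.GS

open Pool.Agent.J4H38.GS Pool.Agent.J4H57.GS.Dia

noncomputable section

/-- the diagonal estimate, uniformly in the shifts -/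
theorem dia_unif (hDK : S_DK) (k : ℕ) (x₀ η : ℝ) (hx₀ : 1 / 2 < x₀) (hη : 0 < η) :
    ∃ δ C : ℝ, 0 < δ ∧ 0 ≤ C ∧ ∀ (α : Fin k → ℝ) (j : ℕ) (b : ℂ), x₀ ≤ b.re →
      ‖MN (NJ η j) α b - MM α b‖ ≤ C * (2 : ℝ) ^ (-(δ * j)) := by
  obtain ⟨κ, hκ⟩ : ∃ κ : ℝ, κ = x₀ - 1 / 2 := ⟨_, rfl⟩
  have hκ0 : 0 < κ := by rw [hκ]; linarith
  obtain ⟨C, hC, hd⟩ := hDK k ((2 * x₀ - 1) / 4) (by linarith)
  have hs1 : Summable fun n : ℕ => ((n : ℝ) + 1) ^ (-(1 + κ / 2)) := summ (by linarith)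
  have hs2 : Summable fun n : ℕ => ((n : ℝ) + 1) ^ (-(1 + κ)) := summ (by linarith)
  have hexp : ∀ n : ℕ, ((n : ℝ) + 1) ^ (-(2 * x₀ - 2 * ((2 * x₀ - 1) / 4))) =
      ((n : ℝ) + 1) ^ (-(1 + κ)) := by
    intro n
    congr 1
    rw [hκ]
    ring
  refine ⟨η * κ / 2, C ^ 2 * ∑' n : ℕ, ((n : ℝ) + 1) ^ (-(1 + κ / 2)), by positivity, ?_, ?_⟩
  · exact mul_nonneg (by positivity) (tsum_nonneg fun n => by positivity)
  intro α j b hb
  obtain ⟨N, hN⟩ : ∃ N, N = NJ η j := ⟨_, rfl⟩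
  rw [← hN]
  have hNl : (2 : ℝ) ^ (η * j) ≤ N := by
    rw [hN]
    exact Nat.le_ceil _
  have hN0 : (0 : ℝ) < N := lt_of_lt_of_le (by positivity) hNl
  have hsN : Summable fun n : ℕ => ((‖gN N α (n + 1)‖ ^ 2 : ℝ) : ℂ) * ((n : ℂ) + 1) ^ (-(2 * b)) := by
    refine Summable.of_norm_bounded (hs2.mul_left (C ^ 2)) fun n => ?_
    rw [← hexp]
    exact term_le hC hd (abs_gN N α n) hb
  have hsg : Summable fun n : ℕ => ((‖gg α (n + 1)‖ ^ 2 : ℝ) : ℂ) * ((n : ℂ) + 1) ^ (-(2 * b)) := by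
    refine Summable.of_norm_bounded (hs2.mul_left (C ^ 2)) fun n => ?_
    rw [← hexp]
    exact term_le hC hd (abs_gg α n) hb
  rw [MN_tsum]
  unfold MM
  rw [← hsN.tsum_sub hsg]
  have hb1 : ∀ n : ℕ, ‖((‖gN N α (n + 1)‖ ^ 2 : ℝ) : ℂ) * ((n : ℂ) + 1) ^ (-(2 * b)) -
      ((‖gg α (n + 1)‖ ^ 2 : ℝ) : ℂ) * ((n : ℂ) + 1) ^ (-(2 * b))‖ ≤
      C ^ 2 * (N : ℝ) ^ (-(κ / 2)) * ((n : ℝ) + 1) ^ (-(1 + κ / 2)) := by
    intro n
    have hn0 : (0 : ℝ) < (n : ℝ) + 1 := by positivity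
    by_cases hn : n + 1 ≤ N
    · rw [gN_eq α (by omega) hn, sub_self, norm_zero]
      positivity
    · have e : ((‖gN N α (n + 1)‖ ^ 2 : ℝ) : ℂ) * ((n : ℂ) + 1) ^ (-(2 * b)) -
          ((‖gg α (n + 1)‖ ^ 2 : ℝ) : ℂ) * ((n : ℂ) + 1) ^ (-(2 * b)) =
          ((‖gN N α (n + 1)‖ ^ 2 - ‖gg α (n + 1)‖ ^ 2 : ℝ) : ℂ) * ((n : ℂ) + 1) ^ (-(2 * b)) := by
        push_cast
        ring
      rw [e]
      refine (term_le hC hd ?_ hb).trans ?_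
      · have h1 := abs_gg α n
        have h2 := abs_gN N α n
        rw [abs_of_nonneg (by positivity)] at h1 h2
        rw [abs_le]
        constructor
        · nlinarith [sq_nonneg ‖gN N α (n + 1)‖]
        · nlinarith [sq_nonneg ‖gg α (n + 1)‖]
      · rw [hexp]
        have h1 : ((n : ℝ) + 1) ^ (-(1 + κ)) =
            ((n : ℝ) + 1) ^ (-(κ / 2)) * ((n : ℝ) + 1) ^ (-(1 + κ / 2)) := by
          rw [← Real.rpow_add hn0]
          congr 1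
          ring
        have h2 : ((n : ℝ) + 1) ^ (-(κ / 2)) ≤ (N : ℝ) ^ (-(κ / 2)) := by
          apply Real.rpow_le_rpow_of_nonpos hN0
          · have : N ≤ n + 1 := by omega
            exact_mod_cast this
          · linarith
        rw [h1, mul_assoc]
        refine mul_le_mul_of_nonneg_left ?_ (by positivity)
        exact mul_le_mul_of_nonneg_right h2 (by positivity)
  have h3 := tsum_of_norm_bounded (hs1.mul_left (C ^ 2 * (N : ℝ) ^ (-(κ / 2)))).hasSum hb1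
  rw [tsum_mul_left] at h3
  refine h3.trans ?_
  have h4 : (N : ℝ) ^ (-(κ / 2)) ≤ (2 : ℝ) ^ (-(η * κ / 2 * j)) := by
    calc (N : ℝ) ^ (-(κ / 2)) ≤ ((2 : ℝ) ^ (η * j)) ^ (-(κ / 2)) :=
          Real.rpow_le_rpow_of_nonpos (by positivity) hNl (by linarith)
      _ = (2 : ℝ) ^ (-(η * κ / 2 * j)) := by
          rw [← Real.rpow_mul (by norm_num)]
          congr 1
          ring
  have h5 : 0 ≤ ∑' n : ℕ, ((n : ℝ) + 1) ^ (-(1 + κ / 2)) := tsum_nonneg fun n => by positivity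
  calc C ^ 2 * (N : ℝ) ^ (-(κ / 2)) * ∑' n : ℕ, ((n : ℝ) + 1) ^ (-(1 + κ / 2))
      ≤ C ^ 2 * (2 : ℝ) ^ (-(η * κ / 2 * j)) * ∑' n : ℕ, ((n : ℝ) + 1) ^ (-(1 + κ / 2)) :=
        mul_le_mul_of_nonneg_right (mul_le_mul_of_nonneg_left h4 (by positivity)) h5
    _ = _ := by ring

/-- almost every point of the cube has no coordinate `0` on the circle -/
theorem ae_ne (k : ℕ) : ∀ᵐ α ∂(volume.restrict (cube k)), ∀ i, ((α i : ℝ) : UnitAddCircle) ≠ 0 := by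
  have h1 : ∀ᵐ α ∂(volume : Measure (Fin k → ℝ)), ∀ i, α i ≠ 0 := by
    rw [ae_all_iff]
    intro i
    have h0 : (volume : Measure (Fin k → ℝ)) {f : Fin k → ℝ | f i = 0} = 0 := by
      rw [volume_pi]
      exact Measure.pi_hyperplane _ i 0
    rw [ae_iff]
    simpa using h0
  have hm : MeasurableSet (cube k) := MeasurableSet.univ_pi fun _ => measurableSet_Ico
  have h2 : ∀ᵐ α ∂(volume.restrict (cube k)), α ∈ cube k := ae_restrict_mem hm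
  filter_upwards [ae_restrict_of_ae h1, h2] with α h1 h2 i h
  have h3 : α i ∈ Ico (0 : ℝ) 1 := h2 i (mem_univ i)
  have : Fact ((0 : ℝ) < 1) := ⟨one_pos⟩
  exact h1 i ((AddCircle.coe_eq_zero_iff_of_mem_Ico h3).mp h)

theorem cont_DZ {k : ℕ} {α : Fin k → ℝ} (hα : ∀ i, ((α i : ℝ) : UnitAddCircle) ≠ 0) (b : ℂ) :
    Continuous fun t : ℝ => DZ α (b + t * Complex.I) := by
  unfold DZ
  refine continuous_finsetProd _ fun i _ => ?_
  exact (HurwitzZeta.differentiable_expZeta_of_ne_zero (hα i)).continuous.comp (by fun_prop)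

theorem cont_DN {k : ℕ} (N : ℕ) (α : Fin k → ℝ) (b : ℂ) :
    Continuous fun t : ℝ => DN N α (b + t * Complex.I) := by
  unfold DN SN
  refine continuous_finsetProd _ fun i _ => ?_
  refine continuous_finsetSum _ fun n hn => ?_
  have h0 : (n : ℂ) ≠ 0 := by
    rw [Finset.mem_Icc] at hn
    exact_mod_cast (by omega : n ≠ 0)
  exact continuous_const.mul (Continuous.const_cpow (by fun_prop) (Or.inl h0))

theorem cont_PP {k : ℕ} {α : Fin k → ℝ} (hα : ∀ i, ((α i : ℝ) : UnitAddCircle) ≠ 0) (b : ℂ) :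
    Continuous fun t : ℝ => ∏ i, (1 + ‖HurwitzZeta.expZeta (α i : UnitAddCircle) (b + t * Complex.I)‖) ^ 2 := by
  refine continuous_finsetProd _ fun i _ => ?_
  refine (continuous_const.add (Continuous.norm ?_)).pow 2
  exact (HurwitzZeta.differentiable_expZeta_of_ne_zero (hα i)).continuous.comp (by fun_prop)

theorem DZ_le {k : ℕ} (α : Fin k → ℝ) (w : ℂ) :
    ‖DZ α w‖ ^ 2 ≤ ∏ i, (1 + ‖HurwitzZeta.expZeta (α i : UnitAddCircle) w‖) ^ 2 := by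
  unfold DZ
  rw [norm_prod, ← Finset.prod_pow]
  refine Finset.prod_le_prod (fun i _ => by positivity) fun i _ => ?_
  exact pow_le_pow_left₀ (norm_nonneg _) (by linarith [norm_nonneg (HurwitzZeta.expZeta (α i : UnitAddCircle) w)]) 2

/-- the pointwise estimate -/
theorem pw (A B A' B' : ℂ) (l : ℝ) (hl : 1 ≤ l) :
    ‖conj A * B - conj A' * B'‖ ≤ l * (‖A - A'‖ ^ 2 + ‖B - B'‖ ^ 2) + (‖A‖ ^ 2 + ‖B‖ ^ 2) / l := by
  have e : conj A * B - conj A' * B' = conj (A - A') * B + conj A * (B - B') - conj (A - A') * (B - B') := by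
    rw [map_sub]
    ring
  have h1 : ‖conj A * B - conj A' * B'‖ ≤ ‖A - A'‖ * ‖B‖ + ‖A‖ * ‖B - B'‖ + ‖A - A'‖ * ‖B - B'‖ := by
    rw [e]
    refine (norm_sub_le _ _).trans ?_
    refine add_le_add ((norm_add_le _ _).trans ?_) ?_
    · rw [norm_mul, norm_mul, RCLike.norm_conj, RCLike.norm_conj]
    · rw [norm_mul, RCLike.norm_conj]
  refine h1.trans ?_
  have hl0 : 0 < l := by linarith
  obtain ⟨u, hu⟩ : ∃ u, u = ‖A - A'‖ := ⟨_, rfl⟩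
  obtain ⟨v, hv⟩ : ∃ v, v = ‖B - B'‖ := ⟨_, rfl⟩
  obtain ⟨a, ha⟩ : ∃ a, a = ‖A‖ := ⟨_, rfl⟩
  obtain ⟨b, hb⟩ : ∃ b, b = ‖B‖ := ⟨_, rfl⟩
  rw [← hu, ← hv, ← ha, ← hb]
  have key : ∀ x y : ℝ, x * y ≤ (l * x ^ 2 + y ^ 2 / l) / 2 := by
    intro x y
    have h : 0 ≤ (l * x - y) ^ 2 / l := by positivity
    have h' : (l * x - y) ^ 2 / l = l * x ^ 2 - 2 * (x * y) + y ^ 2 / l := by
      field_simp
      ring
    rw [h'] at h
    linarith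
  have k1 := key u b
  have k2 := key v a
  have k3 : u * v ≤ (u ^ 2 + v ^ 2) / 2 := by nlinarith [sq_nonneg (u - v)]
  have k4 : (u ^ 2 + v ^ 2) ≤ l * (u ^ 2 + v ^ 2) := by
    nlinarith [sq_nonneg u, sq_nonneg v]
  have k5 : 0 ≤ (a ^ 2 + b ^ 2) / l := by positivity
  have k6 : (a ^ 2 + b ^ 2) / l = a ^ 2 / l + b ^ 2 / l := by ring
  rw [k6] at k5 ⊢
  nlinarith

/-- the integrated estimate -/
theorem core (A B A' B' : ℝ → ℂ) (P Q : ℝ → ℝ) (hA : Continuous A) (hB : Continuous B) (hA' : Continuous A')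
    (hB' : Continuous B') (hP : Continuous P) (hQ : Continuous Q) (hAP : ∀ t, ‖A t‖ ^ 2 ≤ P t)
    (hBQ : ∀ t, ‖B t‖ ^ 2 ≤ Q t) (a T c l : ℝ) (haT : a ≤ T) (hTc : T ≤ c) (hl : 1 ≤ l) :
    ‖(∫ t in a..T, conj (A t) * B t) - ∫ t in a..T, conj (A' t) * B' t‖ ≤
      l * ((∫ t in a..c, ‖A t - A' t‖ ^ 2) + ∫ t in a..c, ‖B t - B' t‖ ^ 2) +
        ((∫ t in a..c, P t) + ∫ t in a..c, Q t) / l := by
  have hl0 : 0 < l := by linarith
  have c1 : Continuous fun t => conj (A t) * B t := (Complex.continuous_conj.comp hA).mul hB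
  have c2 : Continuous fun t => conj (A' t) * B' t := (Complex.continuous_conj.comp hA').mul hB'
  have c3 : Continuous fun t => ‖A t - A' t‖ ^ 2 := ((hA.sub hA').norm).pow 2
  have c4 : Continuous fun t => ‖B t - B' t‖ ^ 2 := ((hB.sub hB').norm).pow 2
  have c5 : Continuous fun t => l * (‖A t - A' t‖ ^ 2 + ‖B t - B' t‖ ^ 2) + (P t + Q t) / l :=
    (continuous_const.mul (c3.add c4)).add ((hP.add hQ).div_const l)
  rw [← intervalIntegral.integral_sub (c1.intervalIntegrable _ _) (c2.intervalIntegrable _ _)]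
  have h1 : ‖∫ t in a..T, (conj (A t) * B t - conj (A' t) * B' t)‖ ≤
      ∫ t in a..T, (l * (‖A t - A' t‖ ^ 2 + ‖B t - B' t‖ ^ 2) + (P t + Q t) / l) := by
    refine intervalIntegral.norm_integral_le_of_norm_le haT ?_ (c5.intervalIntegrable _ _)
    refine Eventually.of_forall fun t _ => ?_
    refine (pw (A t) (B t) (A' t) (B' t) l hl).trans ?_
    have := hAP t
    have := hBQ t
    gcongr
  have h2 : ∫ t in a..T, (l * (‖A t - A' t‖ ^ 2 + ‖B t - B' t‖ ^ 2) + (P t + Q t) / l) ≤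
      ∫ t in a..c, (l * (‖A t - A' t‖ ^ 2 + ‖B t - B' t‖ ^ 2) + (P t + Q t) / l) := by
    rw [← intervalIntegral.integral_add_adjacent_intervals (c5.intervalIntegrable a T) (c5.intervalIntegrable T c)]
    have : 0 ≤ ∫ t in T..c, (l * (‖A t - A' t‖ ^ 2 + ‖B t - B' t‖ ^ 2) + (P t + Q t) / l) := by
      apply intervalIntegral.integral_nonneg hTc
      intro t _
      have h3 : 0 ≤ P t := (by positivity : (0 : ℝ) ≤ ‖A t‖ ^ 2).trans (hAP t)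
      have h4 : 0 ≤ Q t := (by positivity : (0 : ℝ) ≤ ‖B t‖ ^ 2).trans (hBQ t)
      positivity
    linarith
  refine h1.trans (h2.trans (le_of_eq ?_))
  have c6 : Continuous fun t => l * (‖A t - A' t‖ ^ 2 + ‖B t - B' t‖ ^ 2) := continuous_const.mul (c3.add c4)
  have c7 : Continuous fun t => (P t + Q t) / l := (hP.add hQ).div_const l
  rw [intervalIntegral.integral_add (c6.intervalIntegrable _ _) (c7.intervalIntegrable _ _),
    intervalIntegral.integral_const_mul,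
    intervalIntegral.integral_add (c3.intervalIntegrable _ _) (c4.intervalIntegrable _ _),
    intervalIntegral.integral_div, intervalIntegral.integral_add (hP.intervalIntegrable _ _) (hQ.intervalIntegrable _ _)]

theorem t_MVD : S_REM → S_SUB → S_DK → S_POL → S_MVD := by
  intro hREM hSUB hDK hPOL k x₀ x₁ hx₀ hx₀₁
  have hk0 : (0 : ℝ) ≤ k := Nat.cast_nonneg k
  obtain ⟨η, hηd⟩ : ∃ η : ℝ, η = 1 / (6 * k + 6) := ⟨_, rfl⟩
  have hη : 0 < η := by rw [hηd]; positivity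
  have hη1 : 6 * k * η ≤ 1 := by
    rw [hηd, mul_one_div, div_le_one (by positivity)]
    linarith
  obtain ⟨δ₁, hδ₁, hR⟩ := hREM k x₀ x₁ η hx₀ hx₀₁ hη
  have hS := hSUB k x₀ x₁ (δ₁ / 4) hx₀ hx₀₁ (by positivity)
  obtain ⟨δ₂, C₄, hδ₂, hC₄, hD⟩ := dia_unif hDK k x₀ η hx₀ hη
  obtain ⟨δ, hδ, hδ3, hδ4, hδ5⟩ : ∃ δ : ℝ, 0 < δ ∧ δ ≤ δ₁ / 4 ∧ δ ≤ δ₂ ∧ δ ≤ 1 / 2 := by
    refine ⟨min (min (δ₁ / 4) δ₂) (1 / 2), ?_, ?_, ?_, ?_⟩
    · exact lt_min (lt_min (by positivity) hδ₂) (by norm_num)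
    · exact (min_le_left _ _).trans (min_le_left _ _)
    · exact (min_le_left _ _).trans (min_le_right _ _)
    · exact min_le_right _ _
  refine ⟨δ, hδ, ?_⟩
  filter_upwards [hR, hS, ae_ne k] with α hα1 hα2 hα3 Y
  obtain ⟨C₁, hC₁, h1⟩ := hα1 Y
  obtain ⟨C₂, hC₂, h2⟩ := hα2 Y
  obtain ⟨C₃, hC₃, h3⟩ := hPOL k x₀ η (by linarith) hη hη1 α
  refine ⟨2 * C₁ + 2 * C₂ + C₃ + C₄, by positivity, ?_⟩
  intro j b hb T hT1 hT2
  have hj0 : (0 : ℝ) ≤ j := Nat.cast_nonneg j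
  have hcb : conj b ∈ box x₀ x₁ Y := by
    obtain ⟨p1, p2, p3⟩ := hb
    refine ⟨?_, ?_, ?_⟩
    · rw [Complex.conj_re]; exact p1
    · rw [Complex.conj_re]; exact p2
    · rw [Complex.conj_im, abs_neg]; exact p3
  have hl : (1 : ℝ) ≤ (2 : ℝ) ^ (j * (δ₁ / 2)) := Real.one_le_rpow (by norm_num) (by positivity)
  have hmono : ∀ e : ℝ, e ≤ j * (1 - δ) → (2 : ℝ) ^ e ≤ (2 : ℝ) ^ (j * (1 - δ)) := fun e he =>
    Real.rpow_le_rpow_of_exponent_le (by norm_num) he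
  have hE : ‖(∫ t in ((2 : ℝ) ^ j)..T, conj (DZ α (conj b + t * Complex.I)) * DZ α (b + t * Complex.I)) -
      ∫ t in ((2 : ℝ) ^ j)..T, conj (DN (NJ η j) α (conj b + t * Complex.I)) * DN (NJ η j) α (b + t * Complex.I)‖ ≤
      (2 * C₁ + 2 * C₂) * (2 : ℝ) ^ (j * (1 - δ)) := by
    refine (core (fun t => DZ α (conj b + t * Complex.I)) (fun t => DZ α (b + t * Complex.I))
      (fun t => DN (NJ η j) α (conj b + t * Complex.I)) (fun t => DN (NJ η j) α (b + t * Complex.I))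
      (fun t => ∏ i, (1 + ‖HurwitzZeta.expZeta (α i : UnitAddCircle) (conj b + t * Complex.I)‖) ^ 2)
      (fun t => ∏ i, (1 + ‖HurwitzZeta.expZeta (α i : UnitAddCircle) (b + t * Complex.I)‖) ^ 2)
      (cont_DZ hα3 _) (cont_DZ hα3 _) (cont_DN _ _ _) (cont_DN _ _ _) (cont_PP hα3 _) (cont_PP hα3 _)
      (fun t => DZ_le _ _) (fun t => DZ_le _ _) ((2 : ℝ) ^ j) T (2 ^ (j + 1)) ((2 : ℝ) ^ (j * (δ₁ / 2))) hT1 hT2 hl).trans ?_
    have r1 := h1 j b hb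
    have r2 := h1 j (conj b) hcb
    have s1 := h2 j b hb
    have s2 := h2 j (conj b) hcb
    have hl0 : (0 : ℝ) < (2 : ℝ) ^ (j * (δ₁ / 2)) := by positivity
    have q1 : (2 : ℝ) ^ (j * (δ₁ / 2)) * (C₁ * (2 : ℝ) ^ (j * (1 - δ₁)) + C₁ * (2 : ℝ) ^ (j * (1 - δ₁))) ≤
        2 * C₁ * (2 : ℝ) ^ (j * (1 - δ)) := by
      have e1 : (2 : ℝ) ^ (j * (δ₁ / 2)) * (C₁ * (2 : ℝ) ^ (j * (1 - δ₁)) + C₁ * (2 : ℝ) ^ (j * (1 - δ₁))) =
          2 * C₁ * ((2 : ℝ) ^ (j * (δ₁ / 2)) * (2 : ℝ) ^ (j * (1 - δ₁))) := by ring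
      rw [e1, ← Real.rpow_add (by norm_num)]
      refine mul_le_mul_of_nonneg_left (hmono _ ?_) (by positivity)
      nlinarith
    have q2 : (C₂ * (2 : ℝ) ^ (j * (1 + δ₁ / 4)) + C₂ * (2 : ℝ) ^ (j * (1 + δ₁ / 4))) / (2 : ℝ) ^ (j * (δ₁ / 2)) ≤
        2 * C₂ * (2 : ℝ) ^ (j * (1 - δ)) := by
      have e1 : (C₂ * (2 : ℝ) ^ (j * (1 + δ₁ / 4)) + C₂ * (2 : ℝ) ^ (j * (1 + δ₁ / 4))) / (2 : ℝ) ^ (j * (δ₁ / 2)) =
          2 * C₂ * ((2 : ℝ) ^ (j * (1 + δ₁ / 4)) / (2 : ℝ) ^ (j * (δ₁ / 2))) := by ring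
      rw [e1, ← Real.rpow_sub (by norm_num)]
      refine mul_le_mul_of_nonneg_left (hmono _ ?_) (by positivity)
      nlinarith
    have q3 : (2 : ℝ) ^ (j * (δ₁ / 2)) * ((∫ t in ((2 : ℝ) ^ j)..(2 ^ (j + 1)),
          ‖DZ α (conj b + t * Complex.I) - DN (NJ η j) α (conj b + t * Complex.I)‖ ^ 2) +
        ∫ t in ((2 : ℝ) ^ j)..(2 ^ (j + 1)), ‖DZ α (b + t * Complex.I) - DN (NJ η j) α (b + t * Complex.I)‖ ^ 2) ≤
        (2 : ℝ) ^ (j * (δ₁ / 2)) * (C₁ * (2 : ℝ) ^ (j * (1 - δ₁)) + C₁ * (2 : ℝ) ^ (j * (1 - δ₁))) :=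
      mul_le_mul_of_nonneg_left (add_le_add r2 r1) hl0.le
    have q4 : ((∫ t in ((2 : ℝ) ^ j)..(2 ^ (j + 1)),
          ∏ i, (1 + ‖HurwitzZeta.expZeta (α i : UnitAddCircle) (conj b + t * Complex.I)‖) ^ 2) +
        ∫ t in ((2 : ℝ) ^ j)..(2 ^ (j + 1)),
          ∏ i, (1 + ‖HurwitzZeta.expZeta (α i : UnitAddCircle) (b + t * Complex.I)‖) ^ 2) / (2 : ℝ) ^ (j * (δ₁ / 2)) ≤
        (C₂ * (2 : ℝ) ^ (j * (1 + δ₁ / 4)) + C₂ * (2 : ℝ) ^ (j * (1 + δ₁ / 4))) / (2 : ℝ) ^ (j * (δ₁ / 2)) :=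
      div_le_div_of_nonneg_right (add_le_add s2 s1) hl0.le
    calc _ ≤ 2 * C₁ * (2 : ℝ) ^ (j * (1 - δ)) + 2 * C₂ * (2 : ℝ) ^ (j * (1 - δ)) :=
          add_le_add (q3.trans q1) (q4.trans q2)
      _ = _ := by ring
  have hF := h3 j b T hb.1 hT1 hT2
  have hG := hD α j b hb.1
  have hF' : C₃ * (2 : ℝ) ^ ((j : ℝ) / 2) ≤ C₃ * (2 : ℝ) ^ (j * (1 - δ)) := by
    refine mul_le_mul_of_nonneg_left (hmono _ ?_) hC₃
    nlinarith
  have hG' : ‖((T - 2 ^ j : ℝ) : ℂ) * MN (NJ η j) α b - ((T - 2 ^ j : ℝ) : ℂ) * MM α b‖ ≤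
      C₄ * (2 : ℝ) ^ (j * (1 - δ)) := by
    rw [← mul_sub, norm_mul, Complex.norm_real, Real.norm_eq_abs, abs_of_nonneg (by linarith)]
    have e0 : T - 2 ^ j ≤ (2 : ℝ) ^ (j : ℝ) := by
      rw [Real.rpow_natCast]
      rw [pow_succ] at hT2
      linarith
    calc (T - 2 ^ j) * ‖MN (NJ η j) α b - MM α b‖ ≤ (2 : ℝ) ^ (j : ℝ) * (C₄ * (2 : ℝ) ^ (-(δ₂ * j))) :=
          mul_le_mul e0 hG (norm_nonneg _) (by positivity)
      _ = C₄ * (2 : ℝ) ^ ((j : ℝ) + -(δ₂ * j)) := by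
          rw [Real.rpow_add (by norm_num)]
          ring
      _ ≤ C₄ * (2 : ℝ) ^ (j * (1 - δ)) := by
          refine mul_le_mul_of_nonneg_left (hmono _ ?_) hC₄
          nlinarith
  obtain ⟨I1, hI1⟩ : ∃ I1 : ℂ, I1 = ∫ t in ((2 : ℝ) ^ j)..T, conj (DZ α (conj b + t * Complex.I)) * DZ α (b + t * Complex.I) :=
    ⟨_, rfl⟩
  obtain ⟨I2, hI2⟩ : ∃ I2 : ℂ, I2 = ∫ t in ((2 : ℝ) ^ j)..T,
      conj (DN (NJ η j) α (conj b + t * Complex.I)) * DN (NJ η j) α (b + t * Complex.I) := ⟨_, rfl⟩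
  rw [← hI1] at hE ⊢
  rw [← hI2] at hE hF
  have e : I1 - ((T - 2 ^ j : ℝ) : ℂ) * MM α b = (I1 - I2) + (I2 - ((T - 2 ^ j : ℝ) : ℂ) * MN (NJ η j) α b) +
      (((T - 2 ^ j : ℝ) : ℂ) * MN (NJ η j) α b - ((T - 2 ^ j : ℝ) : ℂ) * MM α b) := by ring
  rw [e]
  refine (norm_add_le _ _).trans ?_
  have h4 := norm_add_le (I1 - I2) (I2 - ((T - 2 ^ j : ℝ) : ℂ) * MN (NJ η j) α b)
  calc _ ≤ ((2 * C₁ + 2 * C₂) * (2 : ℝ) ^ (j * (1 - δ)) + C₃ * (2 : ℝ) ^ (j * (1 - δ))) +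
        C₄ * (2 : ℝ) ^ (j * (1 - δ)) := add_le_add (h4.trans (add_le_add hE (hF.trans hF'))) hG'
    _ = _ := by ring

end

end Pool.Agent.J4H97.GS
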